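import Pool.Graph.R_pool_sql_team_51e01f96.Results.MP_98d06d_al.Embed

set_option autoImplicit false

namespace Pool.Agent.KS6_17.PO

open Pool.Agent.Results.MP_98d06d_al

universe u v w

/-- Terms in the language of lattice-ordered groups with variables from `X`. -/
inductive LTerm (X : Type u) : Type u
  | var : X → LTerm X
  | one : LTerm X
  | mul : LTerm X → LTerm X → LTerm X
  | inv : LTerm X → LTerm X
  | sup : LTerm X → LTerm X → LTerm X
  | inf : LTerm X → LTerm X → LTerm X

/-- The value of a term. -/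
def LTerm.eval {X : Type u} {H : Type v} [Group H] [Lattice H] (v : X → H) : LTerm X → H
  | .var x => v x
  | .one => 1
  | .mul s t => s.eval v * t.eval v
  | .inv s => (s.eval v)⁻¹
  | .sup s t => s.eval v ⊔ t.eval v
  | .inf s t => s.eval v ⊓ t.eval v

/-- Substitution. -/
def LTerm.bind {X : Type u} {Y : Type v} (τ : X → LTerm Y) : LTerm X → LTerm Y
  | .var x => τ x
  | .one => .one
  | .mul s t => .mul (s.bind τ) (t.bind τ)
  | .inv s => .inv (s.bind τ)
  | .sup s t => .sup (s.bind τ) (t.bind τ)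
  | .inf s t => .inf (s.bind τ) (t.bind τ)

lemma LTerm.eval_bind {X : Type u} {Y : Type v} {H : Type w} [Group H] [Lattice H] (v : Y → H)
    (τ : X → LTerm Y) (t : LTerm X) : (t.bind τ).eval v = t.eval (fun x => (τ x).eval v) := by
  induction t with
  | var x => rfl
  | one => rfl
  | mul s t hs ht => simp only [LTerm.bind, LTerm.eval, hs, ht]
  | inv s hs => simp only [LTerm.bind, LTerm.eval, hs]
  | sup s t hs ht => simp only [LTerm.bind, LTerm.eval, hs, ht]
  | inf s t hs ht => simp only [LTerm.bind, LTerm.eval, hs, ht]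

/-- `H` satisfies the identities in `E` (pairs of terms in variables `x_0, x_1, ...`). -/
def Sat (E : Set (LTerm ℕ × LTerm ℕ)) (H : Type v) [Group H] [Lattice H] : Prop :=
  ∀ e ∈ E, ∀ v : ℕ → H, e.1.eval v = e.2.eval v

/-- `ψ` preserves all existing suprema and infima. -/
def Complete {G : Type u} {H : Type v} [Group G] [PartialOrder G] [Group H] [Lattice H]
    (ψ : G →* H) : Prop :=
  (∀ (S : Set G) (s : G), IsLUB S s → IsLUB (ψ '' S) (ψ s)) ∧
  (∀ (S : Set G) (s : G), IsGLB S s → IsGLB (ψ '' S) (ψ s))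

/-- `ψ` is an order-embedding. -/
def OrderEmb {G : Type u} {H : Type v} [Group G] [PartialOrder G] [Group H] [Lattice H]
    (ψ : G →* H) : Prop :=
  Function.Injective ψ ∧ ∀ a b, a ≤ b ↔ ψ a ≤ ψ b

lemma OrderEmb.of_le_iff {G : Type u} {H : Type v} [Group G] [PartialOrder G] [Group H]
    [Lattice H] {ψ : G →* H} (h : ∀ a b, a ≤ b ↔ ψ a ≤ ψ b) : OrderEmb ψ :=
  ⟨fun a b hab => le_antisymm ((h a b).2 hab.le) ((h b a).2 hab.ge), h⟩

/-- `π : N → H` is a surjective homomorphism of lattice-ordered groups, defined on the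
lattice-ordered subgroup `N` of `F`. -/
structure IsLQuotient {F : Type u} {H : Type v} [Group F] [Lattice F] [Group H] [Lattice H]
    (N : Subgroup F) (π : N →* H) : Prop where
  sup_mem : ∀ a ∈ N, ∀ b ∈ N, a ⊔ b ∈ N
  inf_mem : ∀ a ∈ N, ∀ b ∈ N, a ⊓ b ∈ N
  surj : Function.Surjective π
  map_sup : ∀ a b c : N, (c : F) = (a : F) ⊔ (b : F) → π c = π a ⊔ π b
  map_inf : ∀ a b c : N, (c : F) = (a : F) ⊓ (b : F) → π c = π a ⊓ π b

lemma IsLQuotient.eval {F : Type u} {H : Type v} [Group F] [Lattice F] [Group H] [Lattice H]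
    {N : Subgroup F} {π : N →* H} (h : IsLQuotient N π) {X : Type w} (v : X → N) (t : LTerm X) :
    ∃ hm : t.eval (fun x => (v x : F)) ∈ N, π ⟨_, hm⟩ = t.eval (fun x => π (v x)) := by
  induction t with
  | var x => exact ⟨(v x).2, rfl⟩
  | one => exact ⟨N.one_mem, map_one π⟩
  | mul s t hs ht =>
    obtain ⟨m1, e1⟩ := hs
    obtain ⟨m2, e2⟩ := ht
    refine ⟨N.mul_mem m1 m2, ?_⟩
    change π (⟨_, m1⟩ * ⟨_, m2⟩) = _
    rw [map_mul, e1, e2]; rfl
  | inv s hs =>
    obtain ⟨m1, e1⟩ := hs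
    refine ⟨N.inv_mem m1, ?_⟩
    change π (⟨_, m1⟩⁻¹) = _
    rw [map_inv, e1]; rfl
  | sup s t hs ht =>
    obtain ⟨m1, e1⟩ := hs
    obtain ⟨m2, e2⟩ := ht
    refine ⟨h.sup_mem _ m1 _ m2, ?_⟩
    rw [h.map_sup ⟨_, m1⟩ ⟨_, m2⟩ _ rfl, e1, e2]; rfl
  | inf s t hs ht =>
    obtain ⟨m1, e1⟩ := hs
    obtain ⟨m2, e2⟩ := ht
    refine ⟨h.inf_mem _ m1 _ m2, ?_⟩
    rw [h.map_inf ⟨_, m1⟩ ⟨_, m2⟩ _ rfl, e1, e2]; rfl

/-- identities pass to lattice-ordered subgroups and their homomorphic images -/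
lemma IsLQuotient.sat {F : Type u} {H : Type v} [Group F] [Lattice F] [Group H] [Lattice H]
    {N : Subgroup F} {π : N →* H} (h : IsLQuotient N π) {E : Set (LTerm ℕ × LTerm ℕ)}
    (hE : Sat E F) : Sat E H := by
  intro e he v
  choose w hw using fun n => h.surj (v n)
  obtain ⟨m1, e1⟩ := h.eval w e.1
  obtain ⟨m2, e2⟩ := h.eval w e.2
  have h1 := hE e he (fun n => (w n : F))
  have hv : (fun n => π (w n)) = v := funext hw
  rw [hv] at e1 e2
  rw [← e1, ← e2]
  congr 1
  exact Subtype.ext h1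

section quotient

variable {G F : Type u} [Group G] [PartialOrder G] [MulLeftMono G] [MulRightMono G]
  [Group F] [Lattice F] [MulLeftMono F] [MulRightMono F]

/-- **Relative form.** For every order-embedding `φ` of `G` into a lattice-ordered group `F` there
are a lattice-ordered subgroup `N` of `F` containing the image and a homomorphic image `H` of `N`
such that the induced map `G → H` is an order-embedding preserving all existing suprema and
infima. -/
theorem relative (φ : G →* F) (hφ : ∀ a b, a ≤ b ↔ φ a ≤ φ b) :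
    ∃ (H : Type u) (_ : Group H) (_ : Lattice H) (_ : MulLeftMono H) (_ : MulRightMono H)
      (N : Subgroup F) (π : N →* H) (hG : ∀ g, φ g ∈ N),
      IsLQuotient N π ∧ OrderEmb (π.comp (φ.codRestrict N hG)) ∧
        Complete (π.comp (φ.codRestrict N hG)) := by
  have hφ' : ∀ a b, φ a ≤ φ b ↔ a ≤ b := fun a b => (hφ a b).symm
  letI := Embed.lat hφ'
  have key : ∀ a b : Embed.N φ, ((a : (Embed.con φ).Quotient) ≤ b) ↔ Embed.R φ a.1 b.1 :=
    fun a b => ⟨fun h => ((Embed.out_rel φ a).2.trans h).trans (Embed.out_rel φ b).1,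
      fun h => ((Embed.out_rel φ a).1.trans h).trans (Embed.out_rel φ b).2⟩
  have hle : ∀ a b : G, a ≤ b ↔
      (((⟨φ a, Embed.N_map a⟩ : Embed.N φ) : (Embed.con φ).Quotient) ≤
        ((⟨φ b, Embed.N_map b⟩ : Embed.N φ) : (Embed.con φ).Quotient)) := fun a b => by
    rw [key]
    exact ⟨fun h => Embed.R.of_le ((hφ' a b).2 h), Embed.R.reflect hφ'⟩
  refine ⟨(Embed.con φ).Quotient, inferInstance, Embed.lat hφ', ⟨fun c a b => ?_⟩,
    ⟨fun c a b => ?_⟩, Embed.N φ, (Embed.con φ).mk', fun g => Embed.N_map g, ?_, ?_, ?_⟩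
  · refine Con.induction_on c fun c => Con.induction_on₂ a b fun a b h => ?_
    exact (key (c * a) (c * b)).2 (c.2.1 _ _ ((key a b).1 h))
  · refine Con.induction_on c fun c => Con.induction_on₂ a b fun a b h => ?_
    exact (key (a * c) (b * c)).2 (((key a b).1 h).mul_right c.1)
  · refine ⟨fun a ha b hb => Embed.N_sup hφ' ha hb, fun a ha b hb => Embed.N_inf hφ' ha hb,
      Con.mk'_surjective, ?_, ?_⟩
    · intro a b c hc
      apply le_antisymm
      · have h1 : ((c : Embed.N φ) : (Embed.con φ).Quotient) ≤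
            (((⟨_, Embed.N_sup hφ' (Quotient.out (a : (Embed.con φ).Quotient) : Embed.N φ).2
              (Quotient.out (b : (Embed.con φ).Quotient) : Embed.N φ).2⟩ : Embed.N φ)) :
              (Embed.con φ).Quotient) := by
          rw [key, hc]
          exact (Embed.out_rel φ a).2.sup hφ' (Embed.out_rel φ b).2
        exact h1
      · apply sup_le
        · exact (key a c).2 (Embed.R.of_le (by rw [hc]; exact le_sup_left))
        · exact (key b c).2 (Embed.R.of_le (by rw [hc]; exact le_sup_right))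
    · intro a b c hc
      apply le_antisymm
      · apply le_inf
        · exact (key c a).2 (Embed.R.of_le (by rw [hc]; exact inf_le_left))
        · exact (key c b).2 (Embed.R.of_le (by rw [hc]; exact inf_le_right))
      · have h1 : (((⟨_, Embed.N_inf hφ' (Quotient.out (a : (Embed.con φ).Quotient) : Embed.N φ).2
              (Quotient.out (b : (Embed.con φ).Quotient) : Embed.N φ).2⟩ : Embed.N φ)) :
              (Embed.con φ).Quotient) ≤ ((c : Embed.N φ) : (Embed.con φ).Quotient) := by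
          rw [key, hc]
          exact (Embed.out_rel φ a).1.inf hφ' (Embed.out_rel φ b).1
        exact h1
  · exact OrderEmb.of_le_iff hle
  · refine ⟨fun S t hS => ⟨?_, ?_⟩, fun S t hS => ⟨?_, ?_⟩⟩
    · rintro _ ⟨s, hs, rfl⟩
      exact (hle _ _).1 (hS.1 hs)
    · intro h
      refine Con.induction_on h fun h hh => ?_
      exact (key ⟨φ t, Embed.N_map t⟩ h).2
        (Embed.R.lub hS fun s hs => (key ⟨φ s, Embed.N_map s⟩ h).1 (hh ⟨s, hs, rfl⟩))
    · rintro _ ⟨s, hs, rfl⟩
      exact (hle _ _).1 (hS.1 hs)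
    · intro h
      refine Con.induction_on h fun h hh => ?_
      exact (key h ⟨φ t, Embed.N_map t⟩).2
        (Embed.R.glb hS fun s hs => (key h ⟨φ s, Embed.N_map s⟩).1 (hh ⟨s, hs, rfl⟩))

end quotient

end Pool.Agent.KS6_17.PO
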