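import Pool.Agent.KS6_17.PO.Univ

set_option autoImplicit false

namespace Pool.Agent.KS6_17.PO

open Pool.Agent.Results.MP_98d06d_al

universe u v w

/-- the quotient of a group by a two-sided invariant total preorder -/
theorem exists_linear_quotient {H : Type u} [Group H] (r : H → H → Prop) (refl : ∀ a, r a a)
    (trans : ∀ a b c, r a b → r b c → r a c) (total : ∀ a b, r a b ∨ r b a)
    (left : ∀ a b c, r a b → r (c * a) (c * b)) (right : ∀ a b c, r a b → r (a * c) (b * c)) :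
    ∃ (T : Type u) (_ : Group T) (_ : LinearOrder T) (_ : MulLeftMono T) (_ : MulRightMono T)
      (τ : H →* T), Function.Surjective τ ∧ ∀ a b, τ a ≤ τ b ↔ r a b := by
  let c : Con H :=
    { r := fun a b => r a b ∧ r b a
      iseqv := ⟨fun a => ⟨refl a, refl a⟩, fun h => ⟨h.2, h.1⟩,
        fun h h' => ⟨trans _ _ _ h.1 h'.1, trans _ _ _ h'.2 h.2⟩⟩
      mul' := fun {a b c d} h h' => ⟨trans _ _ _ (right _ _ c h.1) (left _ _ b h'.1),
        trans _ _ _ (left _ _ b h'.2) (right _ _ c h.2)⟩ }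
  let le : c.Quotient → c.Quotient → Prop := Quotient.lift₂ r fun a b a' b' h h' =>
    propext ⟨fun k => trans _ _ _ h.2 (trans _ _ _ k h'.1),
      fun k => trans _ _ _ h.1 (trans _ _ _ k h'.2)⟩
  have hle : ∀ a b : H, le (a : c.Quotient) (b : c.Quotient) ↔ r a b := fun _ _ => Iff.rfl
  let L : LinearOrder c.Quotient :=
    { le := le
      le_refl := fun a => Con.induction_on a fun a => refl a
      le_trans := fun a b d => Con.induction_on a fun a => Con.induction_on b fun b =>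
        Con.induction_on d fun d h h' => trans _ _ _ h h'
      le_antisymm := fun a b => Con.induction_on a fun a => Con.induction_on b fun b h h' =>
        (Con.eq c).2 ⟨h, h'⟩
      le_total := fun a b => Con.induction_on a fun a => Con.induction_on b fun b => total a b
      toDecidableLE := Classical.decRel _ }
  refine ⟨c.Quotient, inferInstance, L, ⟨fun a b d => ?_⟩, ⟨fun a b d => ?_⟩, c.mk',
    Con.mk'_surjective, fun a b => Iff.rfl⟩
  · exact Con.induction_on a fun a => Con.induction_on b fun b => Con.induction_on d fun d h =>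
      left b d a h
  · exact Con.induction_on a fun a => Con.induction_on b fun b => Con.induction_on d fun d h =>
      right b d a h

section rep

variable {H : Type u} [Group H] [Lattice H]

/-- the identity of representable lattice-ordered groups -/
def RepId (H : Type u) [Group H] [Lattice H] : Prop :=
  ∀ x y : H, (x ⊔ 1) ⊓ (y⁻¹ * (x⁻¹ ⊔ 1) * y) = 1

/-- the same identity as a pair of terms -/
def repPair : LTerm ℕ × LTerm ℕ :=
  (.inf (.sup (.var 0) .one)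
    (.mul (.mul (.inv (.var 1)) (.sup (.inv (.var 0)) .one)) (.var 1)), .one)

lemma sat_rep : Sat {repPair} H ↔ RepId H := by
  constructor
  · intro h x y
    exact h _ rfl (fun n => if n = 0 then x else y)
  · rintro h e rfl v
    exact h (v 0) (v 1)

/-- normal convex subgroups closed under the lattice operations -/
structure NCL (P : Subgroup H) : Prop where
  normal : ∀ x ∈ P, ∀ g, g * x * g⁻¹ ∈ P
  convex : ∀ x ∈ P, ∀ y, 1 ≤ y → y ≤ x → y ∈ P
  pos : ∀ x ∈ P, x ⊔ 1 ∈ P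

variable [MulLeftMono H] [MulRightMono H]

lemma le_ab (x : H) : x ≤ x ⊔ x⁻¹ := le_sup_left
lemma inv_le_ab (x : H) : x⁻¹ ≤ x ⊔ x⁻¹ := le_sup_right

lemma one_le_ab (x : H) : 1 ≤ x ⊔ x⁻¹ := by
  apply pow_two_semiclosed
  rw [pow_two, mul_sup, sup_mul, sup_mul]
  simp only [inv_mul_cancel, mul_inv_cancel]
  exact le_trans le_sup_right le_sup_left

lemma ab_inv (x : H) : x⁻¹ ⊔ x⁻¹⁻¹ = x ⊔ x⁻¹ := by rw [inv_inv, sup_comm]

lemma ab_of_one_le {x : H} (hx : 1 ≤ x) : x ⊔ x⁻¹ = x :=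
  sup_eq_left.2 ((inv_le_one'.2 hx).trans hx)

lemma ab_mul_le (x y : H) : x * y ⊔ (x * y)⁻¹ ≤ (x ⊔ x⁻¹) * (y ⊔ y⁻¹) * (x ⊔ x⁻¹) := by
  apply sup_le
  · calc x * y ≤ (x ⊔ x⁻¹) * (y ⊔ y⁻¹) := mul_le_mul' (le_ab x) (le_ab y)
      _ ≤ _ := le_mul_of_one_le_right' (one_le_ab x)
  · rw [mul_inv_rev]
    calc y⁻¹ * x⁻¹ ≤ (y ⊔ y⁻¹) * (x ⊔ x⁻¹) := mul_le_mul' (inv_le_ab y) (inv_le_ab x)
      _ ≤ (x ⊔ x⁻¹) * ((y ⊔ y⁻¹) * (x ⊔ x⁻¹)) := le_mul_of_one_le_left' (one_le_ab x)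
      _ = _ := (mul_assoc _ _ _).symm

lemma conj_sup (g x y : H) : g * (x ⊔ y) * g⁻¹ = g * x * g⁻¹ ⊔ g * y * g⁻¹ := by
  rw [mul_sup, sup_mul]

lemma conj_inf (g x y : H) : g * (x ⊓ y) * g⁻¹ = g * x * g⁻¹ ⊓ g * y * g⁻¹ := by
  rw [mul_inf, inf_mul]

lemma ab_conj (g x : H) : g * x * g⁻¹ ⊔ (g * x * g⁻¹)⁻¹ = g * (x ⊔ x⁻¹) * g⁻¹ := by
  rw [conj_sup]
  congr 1
  simp only [mul_inv_rev, inv_inv, mul_assoc]

lemma mul_inf_le {p q r : H} (hp : 1 ≤ p) (hq : 1 ≤ q) (hr : 1 ≤ r) :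
    (p * q) ⊓ r ≤ (p ⊓ r) * (q ⊓ r) := by
  rw [mul_inf, inf_mul, inf_mul]
  refine le_inf (le_inf inf_le_left ?_) (le_inf ?_ ?_)
  · exact inf_le_right.trans (le_mul_of_one_le_right' hq)
  · exact inf_le_right.trans (le_mul_of_one_le_left' hp)
  · exact inf_le_right.trans (le_mul_of_one_le_left' hr)

/-- relative polars of invariant sets of positive elements -/
lemma exists_polar {P : Subgroup H} (hP : NCL P) (D : Set H) (hD1 : ∀ d ∈ D, 1 ≤ d)
    (hDc : ∀ d ∈ D, ∀ g, g * d * g⁻¹ ∈ D) :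
    ∃ B : Subgroup H, NCL B ∧ P ≤ B ∧ ∀ x, x ∈ B ↔ ∀ d ∈ D, (x ⊔ x⁻¹) ⊓ d ∈ P := by
  have hsq : ∀ {x y : H}, 1 ≤ y → y ≤ x → x ∈ P → y ∈ P := fun h1 h2 h3 => hP.convex _ h3 _ h1 h2
  let B : Subgroup H :=
    { carrier := {x | ∀ d ∈ D, (x ⊔ x⁻¹) ⊓ d ∈ P}
      one_mem' := fun d hd => by
        have : ((1 : H) ⊔ 1⁻¹) ⊓ d = 1 := by
          rw [inv_one, sup_idem]; exact inf_eq_left.2 (hD1 d hd)
        rw [this]; exact P.one_mem
      mul_mem' := fun {x y} hx hy d hd => by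
        have h1 := one_le_ab x
        have h2 := one_le_ab y
        have hd1 := hD1 d hd
        refine hsq (le_inf (one_le_ab _) hd1) (?_ : _ ≤ ((x ⊔ x⁻¹) ⊓ d) * ((y ⊔ y⁻¹) ⊓ d) *
          ((x ⊔ x⁻¹) ⊓ d)) (P.mul_mem (P.mul_mem (hx d hd) (hy d hd)) (hx d hd))
        calc (x * y ⊔ (x * y)⁻¹) ⊓ d ≤ ((x ⊔ x⁻¹) * (y ⊔ y⁻¹) * (x ⊔ x⁻¹)) ⊓ d :=
              inf_le_inf_right _ (ab_mul_le x y)
          _ ≤ (((x ⊔ x⁻¹) * (y ⊔ y⁻¹)) ⊓ d) * ((x ⊔ x⁻¹) ⊓ d) :=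
              mul_inf_le (one_le_mul h1 h2) h1 hd1
          _ ≤ _ := mul_le_mul_left (mul_inf_le h1 h2 hd1) _
      inv_mem' := fun {x} hx d hd => by
        rw [ab_inv]; exact hx d hd }
  have hmem : ∀ x, x ∈ B ↔ ∀ d ∈ D, (x ⊔ x⁻¹) ⊓ d ∈ P := fun _ => Iff.rfl
  refine ⟨B, ⟨?_, ?_, ?_⟩, ?_, hmem⟩
  · intro x hx g d hd
    have h1 := hx (g⁻¹ * d * g⁻¹⁻¹) (hDc d hd g⁻¹)
    have h2 := hP.normal _ h1 g
    rw [conj_inf] at h2
    rw [ab_conj]
    have h3 : g * (g⁻¹ * d * g⁻¹⁻¹) * g⁻¹ = d := by group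
    rw [h3] at h2
    exact h2
  · intro x hx y h1 h2 d hd
    rw [ab_of_one_le h1]
    exact hsq (le_inf h1 (hD1 d hd)) (inf_le_inf_right _ (h2.trans (le_ab x))) (hx d hd)
  · intro x hx d hd
    rw [ab_of_one_le le_sup_right]
    exact hsq (le_inf le_sup_right (hD1 d hd))
      (inf_le_inf_right _ (sup_le (le_ab x) (one_le_ab x))) (hx d hd)
  · intro x hx d hd
    have h1 : x ⊔ x⁻¹ ∈ P := by
      have e : x ⊔ x⁻¹ = (x * x ⊔ 1) * x⁻¹ := by rw [sup_mul, mul_inv_cancel_right, one_mul]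
      rw [e]
      exact P.mul_mem (hP.pos _ (P.mul_mem hx hx)) (P.inv_mem hx)
    exact hsq (le_inf (one_le_ab x) (hD1 d hd)) inf_le_left h1

/-- **Representation theorem** for lattice-ordered groups satisfying the identity `RepId`. -/
theorem exists_total (hid : RepId H) {h : H} (hne : ¬ h ≤ 1) :
    ∃ (T : Type u) (_ : Group T) (_ : LinearOrder T) (_ : MulLeftMono T) (_ : MulRightMono T)
      (τ : H →* T), Function.Surjective τ ∧ IsLHom τ ∧ ¬ τ h ≤ 1 := by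
  obtain ⟨a, ha⟩ : ∃ a, a = h ⊔ 1 := ⟨_, rfl⟩
  have ha1 : 1 ≤ a := by rw [ha]; exact le_sup_right
  have hane : a ≠ 1 := by
    intro h1
    apply hne
    rw [ha] at h1
    exact sup_eq_right.1 h1
  -- a maximal normal convex subgroup without `a`
  let fam : Set (Subgroup H) := {P | NCL P ∧ a ∉ P}
  have hbot : (⊥ : Subgroup H) ∈ fam := by
    refine ⟨⟨?_, ?_, ?_⟩, ?_⟩
    · intro x hx g
      rw [Subgroup.mem_bot] at hx ⊢
      rw [hx]; simp
    · intro x hx y h1 h2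
      rw [Subgroup.mem_bot] at hx ⊢
      rw [hx] at h2
      exact le_antisymm h2 h1
    · intro x hx
      rw [Subgroup.mem_bot] at hx ⊢
      rw [hx]; simp
    · rw [Subgroup.mem_bot]; exact hane
  obtain ⟨P, -, hPmax⟩ := zorn_le_nonempty₀ fam (by
    intro c hc hchain y hy
    refine ⟨sSup c, ⟨⟨?_, ?_, ?_⟩, ?_⟩, fun z hz => le_sSup hz⟩
    · intro x hx g
      rw [Subgroup.mem_sSup_of_directedOn ⟨y, hy⟩ hchain.directedOn] at hx ⊢
      obtain ⟨Q, hQ, hxQ⟩ := hx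
      exact ⟨Q, hQ, (hc hQ).1.normal x hxQ g⟩
    · intro x hx z h1 h2
      rw [Subgroup.mem_sSup_of_directedOn ⟨y, hy⟩ hchain.directedOn] at hx ⊢
      obtain ⟨Q, hQ, hxQ⟩ := hx
      exact ⟨Q, hQ, (hc hQ).1.convex x hxQ z h1 h2⟩
    · intro x hx
      rw [Subgroup.mem_sSup_of_directedOn ⟨y, hy⟩ hchain.directedOn] at hx ⊢
      obtain ⟨Q, hQ, hxQ⟩ := hx
      exact ⟨Q, hQ, (hc hQ).1.pos x hxQ⟩
    · intro hx
      rw [Subgroup.mem_sSup_of_directedOn ⟨y, hy⟩ hchain.directedOn] at hx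
      obtain ⟨Q, hQ, hxQ⟩ := hx
      exact (hc hQ).2 hxQ) ⊥ hbot
  have hP : NCL P := hPmax.prop.1
  have haP : a ∉ P := hPmax.prop.2
  have hmax : ∀ B : Subgroup H, NCL B → P ≤ B → a ∉ B → B ≤ P := fun B hB hPB haB =>
    hPmax.le_of_ge ⟨hB, haB⟩ hPB
  -- `P` is prime
  have hprime : ∀ x : H, x ⊔ 1 ∈ P ∨ x⁻¹ ⊔ 1 ∈ P := by
    intro x
    by_contra hcon
    push Not at hcon
    obtain ⟨hb, hc⟩ := hcon
    obtain ⟨B, hB, hPB, hBm⟩ := exists_polar hP (Set.range fun g : H => g * (x⁻¹ ⊔ 1) * g⁻¹)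
      (by
        rintro _ ⟨g, rfl⟩
        have h1 : g * 1 * g⁻¹ ≤ g * (x⁻¹ ⊔ 1) * g⁻¹ :=
          mul_le_mul_left (mul_le_mul_right le_sup_right _) _
        simpa using h1)
      (by
        rintro _ ⟨g, rfl⟩ k
        refine ⟨k * g, ?_⟩
        simp only
        group)
    have hbB : x ⊔ 1 ∈ B := by
      rw [hBm]
      rintro _ ⟨g, rfl⟩
      rw [ab_of_one_le le_sup_right]
      have h1 := hid x g⁻¹
      rw [inv_inv] at h1
      simp only
      rw [h1]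
      exact P.one_mem
    have haB : a ∈ B := by
      by_contra haB
      exact hb (hmax B hB hPB haB hbB)
    obtain ⟨C, hC, hPC, hCm⟩ := exists_polar hP {d | ∃ y ∈ B, d = y ⊔ y⁻¹}
      (by rintro _ ⟨y, -, rfl⟩; exact one_le_ab y)
      (by
        rintro _ ⟨y, hy, rfl⟩ g
        exact ⟨g * y * g⁻¹, hB.normal y hy g, (ab_conj g y).symm⟩)
    have hcC : x⁻¹ ⊔ 1 ∈ C := by
      rw [hCm]
      rintro _ ⟨y, hy, rfl⟩
      have h1 := (hBm y).1 hy (1 * (x⁻¹ ⊔ 1) * 1⁻¹) ⟨1, rfl⟩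
      rw [one_mul, inv_one, mul_one] at h1
      rw [ab_of_one_le (x := x⁻¹ ⊔ 1) le_sup_right, inf_comm]
      exact h1
    have haC : a ∈ C := by
      by_contra haC
      exact hc (hmax C hC hPC haC hcC)
    have h1 := (hCm a).1 haC (a ⊔ a⁻¹) ⟨a, haB, rfl⟩
    rw [inf_idem, ab_of_one_le ha1] at h1
    exact haP h1
  -- the total preorder
  obtain ⟨T, hT1, hT2, hT3, hT4, τ, hτs, hτ⟩ := exists_linear_quotient
    (fun x y : H => x * y⁻¹ ⊔ 1 ∈ P)
    (fun x => by simp only [mul_inv_cancel, sup_idem]; exact P.one_mem)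
    (fun x y z h1 h2 => by
      refine hP.convex _ (P.mul_mem h1 h2) _ le_sup_right (sup_le ?_ ?_)
      · calc x * z⁻¹ = (x * y⁻¹) * (y * z⁻¹) := by group
          _ ≤ _ := mul_le_mul' le_sup_left le_sup_left
      · exact one_le_mul le_sup_right le_sup_right)
    (fun x y => by
      have h1 := hprime (x * y⁻¹)
      rwa [mul_inv_rev, inv_inv] at h1)
    (fun x y z h1 => by
      have h2 := hP.normal _ h1 z
      rw [conj_sup] at h2
      have e1 : z * (x * y⁻¹) * z⁻¹ = z * x * (z * y)⁻¹ := by group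
      have e2 : z * 1 * z⁻¹ = 1 := by group
      rwa [e1, e2] at h2)
    (fun x y z h1 => by
      have e1 : x * z * (y * z)⁻¹ = x * y⁻¹ := by group
      rwa [e1])
  have hmono : ∀ x y : H, x ≤ y → τ x ≤ τ y := by
    intro x y hxy
    rw [hτ]
    have h1 : x * y⁻¹ ⊔ 1 = 1 := by
      apply sup_eq_right.2
      have := mul_le_mul_left hxy y⁻¹
      rwa [mul_inv_cancel] at this
    rw [h1]; exact P.one_mem
  refine ⟨T, hT1, hT2, hT3, hT4, τ, hτs, ⟨?_, ?_⟩, ?_⟩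
  · intro x y
    apply le_antisymm
    · rcases le_total (τ x) (τ y) with hxy | hxy
      · rw [sup_eq_right.2 hxy, hτ, sup_mul, mul_inv_cancel, sup_assoc, sup_idem]
        exact (hτ x y).1 hxy
      · rw [sup_eq_left.2 hxy, hτ, sup_mul, mul_inv_cancel, sup_comm (1 : H), sup_assoc, sup_idem]
        exact (hτ y x).1 hxy
    · exact sup_le (hmono _ _ le_sup_left) (hmono _ _ le_sup_right)
  · intro x y
    apply le_antisymm
    · exact le_inf (hmono _ _ inf_le_left) (hmono _ _ inf_le_right)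
    · rcases le_total (τ x) (τ y) with hxy | hxy
      · rw [inf_eq_left.2 hxy, hτ, inv_inf, mul_sup, mul_inv_cancel, sup_comm (1 : H), sup_assoc,
          sup_idem]
        exact (hτ x y).1 hxy
      · rw [inf_eq_right.2 hxy, hτ, inv_inf, mul_sup, mul_inv_cancel, sup_assoc, sup_idem]
        exact (hτ y x).1 hxy
  · intro hle
    rw [← map_one τ, hτ, inv_one, mul_one, ← ha] at hle
    exact haP hle

end rep

end Pool.Agent.KS6_17.PO
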