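import Pool.Agent.KS6_17.PO.Rep

set_option autoImplicit false

namespace Pool.Agent.KS6_17.PO

open Pool.Agent.Results.MP_98d06d_al

universe u v w

/-- a two-sided invariant total preorder -/
def IsTotalPreorder {G : Type u} [Group G] (r : G → G → Prop) : Prop :=
  (∀ a, r a a) ∧ (∀ a b c, r a b → r b c → r a c) ∧ (∀ a b, r a b ∨ r b a) ∧
    (∀ a b c, r a b → r (c * a) (c * b)) ∧ ∀ a b c, r a b → r (a * c) (b * c)

/-- `H` is a subdirect product of totally ordered groups. -/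
def IsSubdirect (H : Type u) [Group H] [Lattice H] : Prop :=
  ∀ h : H, ¬ h ≤ 1 → ∃ (T : Type u) (_ : Group T) (_ : LinearOrder T) (_ : MulLeftMono T)
    (_ : MulRightMono T) (τ : H →* T), Function.Surjective τ ∧ IsLHom τ ∧ ¬ τ h ≤ 1

/-- every group law of `G` is a law of `H` -/
def GroupLaws (G : Type u) (H : Type v) [Group G] [Group H] : Prop :=
  ∀ w : FreeGroup ℕ, (∀ v : ℕ → G, FreeGroup.lift v w = 1) → ∀ v : ℕ → H, FreeGroup.lift v w = 1

lemma map_lift {A : Type u} {B : Type v} [Group A] [Group B] (f : A →* B) (v : ℕ → A)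
    (w : FreeGroup ℕ) : f (FreeGroup.lift v w) = FreeGroup.lift (fun n => f (v n)) w := by
  have h : f.comp (FreeGroup.lift v) = FreeGroup.lift (fun n => f (v n)) := by
    ext n; simp
  exact DFunLike.congr_fun h w

lemma laws_surj {A : Type u} {B : Type v} [Group A] [Group B] (f : A →* B)
    (hf : Function.Surjective f) : GroupLaws A B := by
  intro w hw v
  choose v' hv' using fun n => hf (v n)
  have : v = fun n => f (v' n) := funext fun n => (hv' n).symm
  rw [this, ← map_lift, hw, map_one]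

lemma laws_inj {A : Type u} {B : Type v} [Group A] [Group B] (f : A →* B)
    (hf : Function.Injective f) : GroupLaws B A := by
  intro w hw v
  apply hf
  rw [map_lift, hw, map_one]

lemma laws_trans {A : Type u} {B : Type v} {C : Type w} [Group A] [Group B] [Group C]
    (h1 : GroupLaws A B) (h2 : GroupLaws B C) : GroupLaws A C := fun w hw => h2 w (h1 w hw)

lemma repId_linear {T : Type u} [Group T] [LinearOrder T] [MulLeftMono T] [MulRightMono T] :
    RepId T := by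
  intro x y
  rcases le_total x 1 with h | h
  · rw [sup_eq_right.2 h]
    apply inf_eq_left.2
    have h1 : y⁻¹ * 1 * y ≤ y⁻¹ * (x⁻¹ ⊔ 1) * y :=
      mul_le_mul_left (mul_le_mul_right le_sup_right _) _
    simpa using h1
  · rw [sup_eq_right.2 (inv_le_one'.2 h), sup_eq_left.2 h, mul_one, inv_mul_cancel]
    exact inf_eq_right.2 h

lemma IsLHom.mono {U : Type u} {K : Type v} [Group U] [Lattice U] [Group K] [Lattice K]
    {f : U →* K} (hf : IsLHom f) {a b : U} (h : a ≤ b) : f a ≤ f b := by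
  have := hf.1 a b
  rw [sup_eq_right.2 h] at this
  exact sup_eq_right.1 this.symm

section

variable {G : Type u} [Group G] [PartialOrder G] [MulLeftMono G] [MulRightMono G]

/-- **Intersections of total preorders.** -/
theorem total_embedding {R : Set (G → G → Prop)} (hR : ∀ r ∈ R, IsTotalPreorder r)
    (hG : ∀ a b : G, a ≤ b ↔ ∀ r ∈ R, r a b) :
    ∃ (H : Type u) (_ : Group H) (_ : Lattice H) (_ : MulLeftMono H) (_ : MulRightMono H)
      (ψ : G →* H), OrderEmb ψ ∧ Complete ψ ∧ IsSubdirect H ∧ GroupLaws G H := by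
  choose T i1 i2 i3 i4 τ hs hτ using fun r : R => exists_linear_quotient r.1 (hR r.1 r.2).1
    (hR r.1 r.2).2.1 (hR r.1 r.2).2.2.1 (hR r.1 r.2).2.2.2.1 (hR r.1 r.2).2.2.2.2
  haveI : MulLeftMono (∀ r : R, T r) := ⟨fun a b c h i => mul_le_mul_right (h i) _⟩
  haveI : MulRightMono (∀ r : R, T r) := ⟨fun a b c h i => mul_le_mul_left (h i) _⟩
  let φ : G →* (∀ r : R, T r) := MonoidHom.pi τ
  have hφ : ∀ a b, a ≤ b ↔ φ a ≤ φ b := by
    intro a b
    rw [hG]
    constructor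
    · intro h r
      exact (hτ r a b).2 (h r.1 r.2)
    · intro h r hr
      exact (hτ ⟨r, hr⟩ a b).1 (h ⟨r, hr⟩)
  have hrep : RepId (∀ r : R, T r) := by
    intro x y
    funext r
    exact repId_linear (x r) (y r)
  obtain ⟨H, _, _, _, _, N, π, hN, hq, ho, hc⟩ := relative φ hφ
  have hrepH : RepId H := sat_rep.1 (hq.sat (sat_rep.2 hrep))
  refine ⟨H, inferInstance, inferInstance, inferInstance, inferInstance, _, ho, hc, ?_, ?_⟩
  · intro h hne
    exact exists_total hrepH hne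
  · intro w hw
    have h1 : ∀ v : ℕ → (∀ r : R, T r), FreeGroup.lift v w = 1 := by
      intro v
      funext r
      have h2 := map_lift (Pi.evalMonoidHom T r) v w
      rw [Pi.evalMonoidHom_apply] at h2
      rw [h2]
      exact laws_surj (τ r) (hs r) w hw _
    exact laws_surj π hq.surj w (laws_inj N.subtype N.subtype_injective w h1)

/-- the converse -/
theorem total_of_subdirect {H : Type u} [Group H] [Lattice H] [MulLeftMono H] [MulRightMono H]
    (hH : IsSubdirect H) (ψ : G →* H) (hψ : OrderEmb ψ) :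
    ∃ R : Set (G → G → Prop), (∀ r ∈ R, IsTotalPreorder r) ∧
      ∀ a b : G, a ≤ b ↔ ∀ r ∈ R, r a b := by
  refine ⟨{r | IsTotalPreorder r ∧ ∀ a b, a ≤ b → r a b}, fun r hr => hr.1, fun a b =>
    ⟨fun h r hr => hr.2 a b h, fun h => ?_⟩⟩
  by_contra hab
  have h1 : ¬ ψ (a * b⁻¹) ≤ 1 := by
    rw [map_mul, map_inv]
    intro h2
    apply hab
    rw [hψ.2]
    have := mul_le_mul_left h2 (ψ b)
    rwa [inv_mul_cancel_right, one_mul] at this
  obtain ⟨T, _, _, _, _, τ, -, hτ, hne⟩ := hH _ h1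
  have h2 := h (fun x y => τ (ψ x) ≤ τ (ψ y)) ⟨⟨fun _ => le_rfl, fun _ _ _ h h' => h.trans h',
    fun x y => le_total _ _, fun x y z hxy => by
      simp only [map_mul]; exact mul_le_mul_right hxy _, fun x y z hxy => by
      simp only [map_mul]; exact mul_le_mul_left hxy _⟩, fun x y hxy =>
        hτ.mono ((hψ.2 x y).1 hxy)⟩
  apply hne
  rw [map_mul, map_inv, map_mul, map_inv]
  have := mul_le_mul_left h2 (τ (ψ b))⁻¹
  rwa [mul_inv_cancel] at this

/-- extension of the order of an abelian group -/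
theorem exists_total_of_isolated (hcomm : ∀ a b : G, a * b = b * a)
    (hiso : ∀ (g : G) (n : ℕ), 0 < n → 1 ≤ g ^ n → 1 ≤ g) {g₀ : G} (hg₀ : ¬ 1 ≤ g₀) :
    ∃ r : G → G → Prop, IsTotalPreorder r ∧ (∀ a b, a ≤ b → r a b) ∧ ¬ r 1 g₀ := by
  have hcom : ∀ a b : G, Commute a b := fun a b => hcomm a b
  let fam : Set (Submonoid G) := {Q | (∀ g, 1 ≤ g → g ∈ Q) ∧
    (∀ (g : G) (n : ℕ), 0 < n → g ^ n ∈ Q → g ∈ Q) ∧ g₀ ∉ Q}
  let Q₀ : Submonoid G :=
    { carrier := {g | 1 ≤ g}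
      one_mem' := le_rfl
      mul_mem' := fun ha hb => one_le_mul ha hb }
  have hQ₀ : Q₀ ∈ fam := ⟨fun g hg => hg, hiso, hg₀⟩
  obtain ⟨Q, -, hQmax⟩ := zorn_le_nonempty₀ fam (by
    intro c hc hchain y hy
    refine ⟨sSup c, ⟨?_, ?_, ?_⟩, fun z hz => le_sSup hz⟩
    · intro g hg
      exact (le_sSup hy : y ≤ sSup c) ((hc hy).1 g hg)
    · intro g n hn hx
      rw [Submonoid.mem_sSup_of_directedOn ⟨y, hy⟩ hchain.directedOn] at hx ⊢
      obtain ⟨Q, hQ, hxQ⟩ := hx
      exact ⟨Q, hQ, (hc hQ).2.1 g n hn hxQ⟩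
    · intro hx
      rw [Submonoid.mem_sSup_of_directedOn ⟨y, hy⟩ hchain.directedOn] at hx
      obtain ⟨Q, hQ, hxQ⟩ := hx
      exact (hc hQ).2.2 hxQ) Q₀ hQ₀
  obtain ⟨hQ1, hQ2, hQ3⟩ := hQmax.prop
  -- adjoining an element
  have hadj : ∀ x : G, x ∉ Q → ∃ (n k : ℕ) (q : G), 0 < n ∧ q ∈ Q ∧ g₀ ^ n = q * x ^ k := by
    intro x hx
    by_contra hcon
    push Not at hcon
    let Qx : Submonoid G :=
      { carrier := {y | ∃ (n k : ℕ) (q : G), 0 < n ∧ q ∈ Q ∧ y ^ n = q * x ^ k}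
        one_mem' := ⟨1, 0, 1, one_pos, Q.one_mem, by simp⟩
        mul_mem' := by
          rintro a b ⟨n, k, q, hn, hq, h1⟩ ⟨m, l, q', hm, hq', h2⟩
          refine ⟨n * m, k * m + l * n, q ^ m * q' ^ n, Nat.mul_pos hn hm,
            Q.mul_mem (Q.pow_mem hq m) (Q.pow_mem hq' n), ?_⟩
          rw [(hcom a b).mul_pow, pow_mul, h1, mul_comm n m, pow_mul, h2, (hcom _ _).mul_pow,
            (hcom _ _).mul_pow, ← pow_mul, ← pow_mul, pow_add]
          rw [mul_assoc, mul_assoc, ← mul_assoc (x ^ (k * m)), hcomm (x ^ (k * m)) (q' ^ n),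
            mul_assoc] }
    have hQx : Qx ∈ fam := by
      refine ⟨fun g hg => ⟨1, 0, g, one_pos, hQ1 g hg, by simp⟩, ?_, ?_⟩
      · rintro g n hn ⟨m, k, q, hm, hq, h1⟩
        exact ⟨n * m, k, q, Nat.mul_pos hn hm, hq, by rw [pow_mul, h1]⟩
      · rintro ⟨n, k, q, hn, hq, h1⟩
        exact hcon n k q hn hq h1
    have hle : Q ≤ Qx := fun y hy => ⟨1, 0, y, one_pos, hy, by simp⟩
    have := hQmax.le_of_ge hQx hle
    exact hx (this ⟨1, 1, 1, one_pos, Q.one_mem, by simp⟩)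
  have htotal : ∀ x : G, x ∈ Q ∨ x⁻¹ ∈ Q := by
    intro x
    by_contra hcon
    push Not at hcon
    obtain ⟨n, k, q, hn, hq, h1⟩ := hadj x hcon.1
    obtain ⟨m, l, q', hm, hq', h2⟩ := hadj x⁻¹ hcon.2
    rcases Nat.eq_zero_or_pos k with hk | hk
    · rw [hk, pow_zero, mul_one] at h1
      exact hQ3 (hQ2 g₀ n hn (by rw [h1]; exact hq))
    · have h3 : g₀ ^ (n * l + m * k) = q ^ l * q' ^ k := by
        rw [pow_add, pow_mul, pow_mul, h1, h2, (hcom _ _).mul_pow, (hcom _ _).mul_pow, ← pow_mul,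
          ← pow_mul, mul_assoc, ← mul_assoc (x ^ (k * l)), hcomm (x ^ (k * l)) (q' ^ k), mul_assoc,
          mul_comm l k, inv_pow, mul_inv_cancel, mul_one]
      exact hQ3 (hQ2 g₀ (n * l + m * k) (by positivity) (by
        rw [h3]; exact Q.mul_mem (Q.pow_mem hq l) (Q.pow_mem hq' k)))
  refine ⟨fun a b => b * a⁻¹ ∈ Q, ⟨?_, ?_, ?_, ?_, ?_⟩, ?_, ?_⟩
  · intro a; simp only [mul_inv_cancel]; exact Q.one_mem
  · intro a b c h1 h2
    have := Q.mul_mem h2 h1
    have e : c * b⁻¹ * (b * a⁻¹) = c * a⁻¹ := by group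
    rwa [e] at this
  · intro a b
    have := htotal (b * a⁻¹)
    rwa [mul_inv_rev, inv_inv] at this
  · intro a b c h
    have e : c * b * (c * a)⁻¹ = b * a⁻¹ := by
      rw [mul_inv_rev, hcomm c b, mul_assoc, ← mul_assoc c, hcomm c a⁻¹, mul_assoc,
        mul_inv_cancel, mul_one]
    rwa [e]
  · intro a b c h
    have e : b * c * (a * c)⁻¹ = b * a⁻¹ := by group
    rwa [e]
  · intro a b h
    apply hQ1
    have := mul_le_mul_left h a⁻¹
    rwa [mul_inv_cancel] at this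
  · intro h
    simp only [inv_one, mul_one] at h
    exact hQ3 h

/-- **Abelian groups.** -/
theorem abelian_embedding (hcomm : ∀ a b : G, a * b = b * a)
    (hiso : ∀ (g : G) (n : ℕ), 0 < n → 1 ≤ g ^ n → 1 ≤ g) :
    ∃ (H : Type u) (_ : Group H) (_ : Lattice H) (_ : MulLeftMono H) (_ : MulRightMono H)
      (ψ : G →* H), OrderEmb ψ ∧ Complete ψ ∧ IsSubdirect H ∧ ∀ a b : H, a * b = b * a := by
  obtain ⟨H, _, _, _, _, ψ, ho, hc, hs, hl⟩ := total_embedding (G := G)
    (R := {r | IsTotalPreorder r ∧ ∀ a b, a ≤ b → r a b}) (fun r hr => hr.1) (fun a b =>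
      ⟨fun h r hr => hr.2 a b h, fun h => by
        by_contra hab
        have h1 : ¬ 1 ≤ b * a⁻¹ := by
          intro h2
          have := mul_le_mul_left h2 a
          rw [inv_mul_cancel_right, one_mul] at this
          exact hab this
        obtain ⟨r, hr, hext, hne⟩ := exists_total_of_isolated hcomm hiso h1
        apply hne
        have h2 := hr.2.2.2.2 _ _ a⁻¹ (h r ⟨hr, hext⟩)
        rwa [mul_inv_cancel] at h2⟩)
  refine ⟨H, inferInstance, inferInstance, inferInstance, inferInstance, ψ, ho, hc, hs, ?_⟩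
  intro a b
  have h1 := hl (FreeGroup.of 0 * FreeGroup.of 1 * (FreeGroup.of 0)⁻¹ * (FreeGroup.of 1)⁻¹)
    (fun v => by
      simp only [map_mul, map_inv, FreeGroup.lift_apply_of]
      rw [hcomm (v 0) (v 1)]; group) (fun n => if n = 0 then a else b)
  simp only [map_mul, map_inv, FreeGroup.lift_apply_of, if_true, one_ne_zero, if_false] at h1
  have h2 : a * b = b * a := by
    have h3 := congrArg (fun z => z * (b * a)) h1
    simp only [one_mul] at h3
    rw [← h3]; group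
  exact h2

end

/-- commutative lattice-ordered groups are isolated -/
theorem isolated_of_comm {H : Type u} [Group H] [Lattice H] [MulLeftMono H] [MulRightMono H]
    (hcomm : ∀ a b : H, a * b = b * a) (x : H) (n : ℕ) (hn : 0 < n) (hx : 1 ≤ x ^ n) :
    1 ≤ x := by
  have hrep : RepId H := by
    intro x y
    have e1 : y⁻¹ * (x⁻¹ ⊔ 1) * y = x⁻¹ ⊔ 1 := by
      rw [mul_assoc, hcomm (x⁻¹ ⊔ 1) y, inv_mul_cancel_left]
    rw [e1]
    have e2 : x⁻¹ ⊔ 1 = (x ⊔ 1) * x⁻¹ := by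
      rw [sup_mul, mul_inv_cancel, one_mul, sup_comm]
    have e3 : (x ⊔ 1) ⊓ ((x ⊔ 1) * x⁻¹) = (x ⊔ 1) * (1 ⊓ x⁻¹) := by
      rw [mul_inf, mul_one]
    rw [e2, e3]
    have e4 : (1 : H) ⊓ x⁻¹ = (x ⊔ 1)⁻¹ := by
      rw [inv_sup, inv_one, inf_comm]
    rw [e4, mul_inv_cancel]
  by_contra hne
  have h1 : ¬ x⁻¹ ≤ 1 := fun h => hne (inv_le_one'.1 h)
  obtain ⟨T, _, _, _, _, τ, -, hτ, hT⟩ := exists_total hrep h1
  have h2 : τ x < 1 := by
    rw [map_inv, inv_le_one', not_le] at hT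
    exact hT
  have h3 := hτ.mono hx
  rw [map_one, map_pow] at h3
  exact absurd h3 (not_le.2 (pow_lt_one' h2 hn.ne'))

end Pool.Agent.KS6_17.PO
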