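import Pool.Agent.KS6_17.PO.Core

set_option autoImplicit false

namespace Pool.Agent.KS6_17.PO

open Pool.Agent.Results.MP_98d06d_al

universe u v w

/-- `f` is a homomorphism of lattice-ordered groups. -/
def IsLHom {U : Type u} {K : Type v} [Group U] [Lattice U] [Group K] [Lattice K] (f : U →* K) :
    Prop := (∀ a b, f (a ⊔ b) = f a ⊔ f b) ∧ ∀ a b, f (a ⊓ b) = f a ⊓ f b

lemma IsLHom.eval {U : Type u} {K : Type v} [Group U] [Lattice U] [Group K] [Lattice K]
    {f : U →* K} (hf : IsLHom f) {X : Type w} (v : X → U) (t : LTerm X) :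
    f (t.eval v) = t.eval (fun x => f (v x)) := by
  induction t with
  | var x => rfl
  | one => exact map_one f
  | mul s t hs ht => simp only [LTerm.eval, map_mul, hs, ht]
  | inv s hs => simp only [LTerm.eval, map_inv, hs]
  | sup s t hs ht => simp only [LTerm.eval, hf.1, hs, ht]
  | inf s t hs ht => simp only [LTerm.eval, hf.2, hs, ht]

section univ

variable (G : Type u) [Group G] [PartialOrder G] (E : Set (LTerm ℕ × LTerm ℕ))

/-- the inequalities between terms that hold for all homomorphisms of `G` that preserve all existing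
suprema and infima, into lattice-ordered groups satisfying `E` -/
def TLe (s t : LTerm G) : Prop :=
  ∀ (K : Type u) [Group K] [Lattice K] [MulLeftMono K] [MulRightMono K] (χ : G →* K),
    Sat E K → Complete χ → s.eval χ ≤ t.eval χ

/-- the equations -/
def TEq (s t : LTerm G) : Prop :=
  ∀ (K : Type u) [Group K] [Lattice K] [MulLeftMono K] [MulRightMono K] (χ : G →* K),
    Sat E K → Complete χ → s.eval χ = t.eval χ

variable {G E} in
lemma TEq.le {s t : LTerm G} (h : TEq G E s t) : TLe G E s t :=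
  fun K _ _ _ _ χ hE hχ => (h K χ hE hχ).le

variable {G E} in
lemma TEq.ge {s t : LTerm G} (h : TEq G E s t) : TLe G E t s :=
  fun K _ _ _ _ χ hE hχ => (h K χ hE hχ).ge

variable {G E} in
lemma TLe.trans {s t r : LTerm G} (h : TLe G E s t) (h' : TLe G E t r) : TLe G E s r :=
  fun K _ _ _ _ χ hE hχ => (h K χ hE hχ).trans (h' K χ hE hχ)

/-- the equivalence of terms -/
def tSetoid : Setoid (LTerm G) where
  r := TEq G E
  iseqv := ⟨fun _ _ _ _ _ _ _ _ _ => rfl, fun h K _ _ _ _ χ hE hχ => (h K χ hE hχ).symm,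
    fun h h' K _ _ _ _ χ hE hχ => (h K χ hE hχ).trans (h' K χ hE hχ)⟩

/-- the universal lattice-ordered group -/
def UU : Type u := Quotient (tSetoid G E)

namespace UU

variable {G E}

/-- the class of a term -/
def mk (t : LTerm G) : UU G E := Quotient.mk (tSetoid G E) t

lemma mk_surj (a : UU G E) : ∃ t, mk t = a := Quotient.exists_rep a

lemma sound {s t : LTerm G} (h : TEq G E s t) : (mk s : UU G E) = mk t :=
  Quotient.sound (s := tSetoid G E) h

instance : Mul (UU G E) := ⟨Quotient.map₂ LTerm.mul fun _ _ h _ _ h' K _ _ _ _ χ hE hχ => by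
  simp only [LTerm.eval, h K χ hE hχ, h' K χ hE hχ]⟩

instance : One (UU G E) := ⟨mk .one⟩

instance : Inv (UU G E) := ⟨Quotient.map LTerm.inv fun _ _ h K _ _ _ _ χ hE hχ => by
  simp only [LTerm.eval, h K χ hE hχ]⟩

lemma mk_mul (s t : LTerm G) : (mk s * mk t : UU G E) = mk (.mul s t) := rfl
lemma mk_one : (1 : UU G E) = mk .one := rfl
lemma mk_inv (s : LTerm G) : ((mk s)⁻¹ : UU G E) = mk (.inv s) := rfl

instance instGroup : Group (UU G E) :=
  Group.ofLeftAxioms
    (by
      intro a b c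
      obtain ⟨a, rfl⟩ := mk_surj a
      obtain ⟨b, rfl⟩ := mk_surj b
      obtain ⟨c, rfl⟩ := mk_surj c
      rw [mk_mul, mk_mul, mk_mul, mk_mul]
      apply sound
      intro K _ _ _ _ χ _ _
      simp only [LTerm.eval, mul_assoc])
    (by
      intro a
      obtain ⟨a, rfl⟩ := mk_surj a
      rw [mk_one, mk_mul]
      apply sound
      intro K _ _ _ _ χ _ _
      simp only [LTerm.eval, one_mul])
    (by
      intro a
      obtain ⟨a, rfl⟩ := mk_surj a
      rw [mk_inv, mk_mul, mk_one]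
      apply sound
      intro K _ _ _ _ χ _ _
      simp only [LTerm.eval, inv_mul_cancel])

lemma mk_mul' (s t : LTerm G) : (mk s * mk t : UU G E) = mk (.mul s t) := rfl
lemma mk_one' : (1 : UU G E) = mk .one := rfl
lemma mk_inv' (s : LTerm G) : ((mk s)⁻¹ : UU G E) = mk (.inv s) := rfl

instance instLE : LE (UU G E) := ⟨Quotient.lift₂ (TLe G E) fun _ _ _ _ h h' =>
  propext ⟨fun k => (h.ge.trans k).trans h'.le, fun k => (h.le.trans k).trans h'.ge⟩⟩

lemma mk_le {s t : LTerm G} : ((mk s : UU G E) ≤ mk t) ↔ TLe G E s t := Iff.rfl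

instance instLattice : Lattice (UU G E) where
  le := (· ≤ ·)
  le_refl a := by
    obtain ⟨a, rfl⟩ := mk_surj a
    exact fun K _ _ _ _ χ _ _ => le_rfl
  le_trans a b c := by
    obtain ⟨a, rfl⟩ := mk_surj a
    obtain ⟨b, rfl⟩ := mk_surj b
    obtain ⟨c, rfl⟩ := mk_surj c
    exact fun h h' => TLe.trans h h'
  le_antisymm a b := by
    obtain ⟨a, rfl⟩ := mk_surj a
    obtain ⟨b, rfl⟩ := mk_surj b
    intro h h'
    apply sound
    intro K _ _ _ _ χ hE hχ
    exact le_antisymm (h K χ hE hχ) (h' K χ hE hχ)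
  sup := Quotient.map₂ LTerm.sup fun _ _ h _ _ h' K _ _ _ _ χ hE hχ => by
    simp only [LTerm.eval, h K χ hE hχ, h' K χ hE hχ]
  inf := Quotient.map₂ LTerm.inf fun _ _ h _ _ h' K _ _ _ _ χ hE hχ => by
    simp only [LTerm.eval, h K χ hE hχ, h' K χ hE hχ]
  le_sup_left a b := by
    obtain ⟨a, rfl⟩ := mk_surj a
    obtain ⟨b, rfl⟩ := mk_surj b
    exact fun K _ _ _ _ χ _ _ => le_sup_left
  le_sup_right a b := by
    obtain ⟨a, rfl⟩ := mk_surj a
    obtain ⟨b, rfl⟩ := mk_surj b
    exact fun K _ _ _ _ χ _ _ => le_sup_right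
  sup_le a b c := by
    obtain ⟨a, rfl⟩ := mk_surj a
    obtain ⟨b, rfl⟩ := mk_surj b
    obtain ⟨c, rfl⟩ := mk_surj c
    exact fun h h' K _ _ _ _ χ hE hχ => sup_le (h K χ hE hχ) (h' K χ hE hχ)
  inf_le_left a b := by
    obtain ⟨a, rfl⟩ := mk_surj a
    obtain ⟨b, rfl⟩ := mk_surj b
    exact fun K _ _ _ _ χ _ _ => inf_le_left
  inf_le_right a b := by
    obtain ⟨a, rfl⟩ := mk_surj a
    obtain ⟨b, rfl⟩ := mk_surj b
    exact fun K _ _ _ _ χ _ _ => inf_le_right
  le_inf a b c := by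
    obtain ⟨a, rfl⟩ := mk_surj a
    obtain ⟨b, rfl⟩ := mk_surj b
    obtain ⟨c, rfl⟩ := mk_surj c
    exact fun h h' K _ _ _ _ χ hE hχ => le_inf (h K χ hE hχ) (h' K χ hE hχ)

lemma mk_sup (s t : LTerm G) : (mk s ⊔ mk t : UU G E) = mk (.sup s t) := rfl
lemma mk_inf (s t : LTerm G) : (mk s ⊓ mk t : UU G E) = mk (.inf s t) := rfl

instance instLeft : MulLeftMono (UU G E) := ⟨fun a b c => by
  obtain ⟨a, rfl⟩ := mk_surj a
  obtain ⟨b, rfl⟩ := mk_surj b
  obtain ⟨c, rfl⟩ := mk_surj c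
  exact fun h K _ _ _ _ χ hE hχ => mul_le_mul_right (h K χ hE hχ) _⟩

instance instRight : MulRightMono (UU G E) := ⟨fun a b c => by
  obtain ⟨a, rfl⟩ := mk_surj a
  obtain ⟨b, rfl⟩ := mk_surj b
  obtain ⟨c, rfl⟩ := mk_surj c
  exact fun h K _ _ _ _ χ hE hχ => mul_le_mul_left (h K χ hE hχ) _⟩

lemma eval_mk {X : Type w} (τ : X → LTerm G) (t : LTerm X) :
    t.eval (fun x => (mk (τ x) : UU G E)) = mk (t.bind τ) := by
  induction t with
  | var x => rfl
  | one => rfl
  | mul s t hs ht => simp only [LTerm.eval, LTerm.bind, hs, ht, mk_mul']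
  | inv s hs => simp only [LTerm.eval, LTerm.bind, hs, mk_inv']
  | sup s t hs ht => simp only [LTerm.eval, LTerm.bind, hs, ht, mk_sup]
  | inf s t hs ht => simp only [LTerm.eval, LTerm.bind, hs, ht, mk_inf]

lemma sat : Sat E (UU G E) := by
  intro e he v
  choose τ hτ using fun n => mk_surj (v n)
  have hv : v = fun n => mk (τ n) := funext fun n => (hτ n).symm
  rw [hv, eval_mk, eval_mk]
  apply sound
  intro K _ _ _ _ χ hE hχ
  rw [LTerm.eval_bind, LTerm.eval_bind]
  exact hE e he _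

variable (G E) in
/-- the universal map -/
def ups : G →* UU G E where
  toFun g := mk (.var g)
  map_one' := sound fun K _ _ _ _ χ _ _ => map_one χ
  map_mul' a b := sound fun K _ _ _ _ χ _ _ => map_mul χ a b

lemma ups_apply (g : G) : ups G E g = mk (.var g) := rfl

lemma eval_ups (t : LTerm G) : t.eval (ups G E) = mk t := by
  have h : t.bind LTerm.var = t := by
    induction t with
    | var x => rfl
    | one => rfl
    | mul s t hs ht => simp only [LTerm.bind, hs, ht]
    | inv s hs => simp only [LTerm.bind, hs]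
    | sup s t hs ht => simp only [LTerm.bind, hs, ht]
    | inf s t hs ht => simp only [LTerm.bind, hs, ht]
  have := eval_mk (E := E) (fun g : G => LTerm.var g) t
  rw [h] at this
  exact this

lemma complete : Complete (ups G E) := by
  refine ⟨fun S s hS => ⟨?_, ?_⟩, fun S s hS => ⟨?_, ?_⟩⟩
  · rintro _ ⟨x, hx, rfl⟩
    exact fun K _ _ _ _ χ _ hχ => (hχ.1 S s hS).1 ⟨x, hx, rfl⟩
  · intro b hb
    obtain ⟨b, rfl⟩ := mk_surj b
    intro K _ _ _ _ χ hE hχ
    apply (hχ.1 S s hS).2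
    rintro _ ⟨x, hx, rfl⟩
    exact (hb ⟨x, hx, rfl⟩ : TLe G E (.var x) b) K χ hE hχ
  · rintro _ ⟨x, hx, rfl⟩
    exact fun K _ _ _ _ χ _ hχ => (hχ.2 S s hS).1 ⟨x, hx, rfl⟩
  · intro b hb
    obtain ⟨b, rfl⟩ := mk_surj b
    intro K _ _ _ _ χ hE hχ
    apply (hχ.2 S s hS).2
    rintro _ ⟨x, hx, rfl⟩
    exact (hb ⟨x, hx, rfl⟩ : TLe G E b (.var x)) K χ hE hχ

lemma lift {K : Type u} [Group K] [Lattice K] [MulLeftMono K] [MulRightMono K] (χ : G →* K)
    (hE : Sat E K) (hχ : Complete χ) :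
    ∃! f : UU G E →* K, IsLHom f ∧ ∀ g, f (ups G E g) = χ g := by
  let f0 : UU G E → K := Quotient.lift (fun t => t.eval χ) fun s t h => h K χ hE hχ
  have hf0 : ∀ t, f0 (mk t) = t.eval χ := fun _ => rfl
  let f : UU G E →* K :=
    { toFun := f0
      map_one' := rfl
      map_mul' := by
        intro a b
        obtain ⟨a, rfl⟩ := mk_surj a
        obtain ⟨b, rfl⟩ := mk_surj b
        rfl }
  refine ⟨f, ⟨⟨?_, ?_⟩, fun g => rfl⟩, ?_⟩
  · intro a b
    obtain ⟨a, rfl⟩ := mk_surj a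
    obtain ⟨b, rfl⟩ := mk_surj b
    rfl
  · intro a b
    obtain ⟨a, rfl⟩ := mk_surj a
    obtain ⟨b, rfl⟩ := mk_surj b
    rfl
  · rintro f' ⟨hf', hg⟩
    ext a
    obtain ⟨t, rfl⟩ := mk_surj a
    rw [← eval_ups (E := E) t, hf'.eval]
    change t.eval (fun x => f' (ups G E x)) = f (t.eval (ups G E))
    rw [eval_ups]
    change _ = t.eval χ
    congr 1
    exact funext hg

end UU

end univ

/-- **The universal embedding.** -/
theorem universal (G : Type u) [Group G] [PartialOrder G] [MulLeftMono G] [MulRightMono G]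
    (E : Set (LTerm ℕ × LTerm ℕ)) :
    ∃ (U : Type u) (_ : Group U) (_ : Lattice U) (_ : MulLeftMono U) (_ : MulRightMono U)
      (υ : G →* U), Sat E U ∧ Complete υ ∧ (∀ a : U, ∃ t : LTerm G, t.eval υ = a) ∧
      (∀ (K : Type u) [Group K] [Lattice K] [MulLeftMono K] [MulRightMono K] (χ : G →* K),
        Sat E K → Complete χ → ∃! f : U →* K, IsLHom f ∧ ∀ g, f (υ g) = χ g) ∧
      (OrderEmb υ ↔ ∃ (F : Type u) (_ : Group F) (_ : Lattice F) (_ : MulLeftMono F)
        (_ : MulRightMono F) (φ : G →* F), Sat E F ∧ OrderEmb φ) := by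
  refine ⟨UU G E, inferInstance, inferInstance, inferInstance, inferInstance, UU.ups G E,
    UU.sat, UU.complete, ?_, ?_, ?_, ?_⟩
  · intro a
    obtain ⟨t, rfl⟩ := UU.mk_surj a
    exact ⟨t, UU.eval_ups t⟩
  · intro K _ _ _ _ χ hE hχ
    exact UU.lift χ hE hχ
  · intro h
    exact ⟨UU G E, inferInstance, inferInstance, inferInstance, inferInstance, UU.ups G E,
      UU.sat, h⟩
  · rintro ⟨F, _, _, _, _, φ, hE, hφ⟩
    obtain ⟨H, _, _, _, _, N, π, hG, hq, ho, hc⟩ := relative φ hφ.2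
    obtain ⟨f, ⟨hf, hfg⟩, -⟩ := UU.lift (E := E) _ (hq.sat hE) hc
    apply OrderEmb.of_le_iff
    intro a b
    constructor
    · intro hab K _ _ _ _ χ _ hχ
      have h1 : IsLUB {a, b} b := by
        constructor
        · rintro x (rfl | rfl)
          · exact hab
          · exact le_rfl
        · intro y hy; exact hy (by simp)
      exact (hχ.1 _ _ h1).1 ⟨a, by simp, rfl⟩
    · intro hab
      rw [ho.2, ← hfg, ← hfg]
      have h1 : f (UU.ups G E a ⊔ UU.ups G E b) = f (UU.ups G E b) := by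
        rw [sup_eq_right.2 hab]
      rw [hf.1] at h1
      exact sup_eq_right.1 h1

end Pool.Agent.KS6_17.PO
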